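import Pool.Agent.R34.DP.Stm

/-!
Project DP, piece L1: good operators are contractions in `L¹`.
-/

open MeasureTheory ProbabilityTheory Set Filter
open scoped NNReal ENNReal Topology

namespace R34.DP

theorem L1aux_integrable {X : Type} [NormedAddCommGroup X] [MeasurableSpace X]
    [BorelSpace X] [SecondCountableTopology X] (μ : Measure X) [IsProbabilityMeasure μ]
    (F : X → ℝ) (hF : Adm F) : Integrable F μ := by
  obtain ⟨⟨K, hK⟩, B, hB⟩ := hF
  exact Integrable.of_bound hK.continuous.aestronglyMeasurable B
    (Filter.Eventually.of_forall fun x => hB x)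

theorem L1aux_adm {X : Type} [NormedAddCommGroup X] [PartialOrder X] [MeasurableSpace X]
    (μ : Measure X) (T : (X → ℝ) → X → ℝ) (C : ℝ≥0) (hT : GoodOp μ T C) (F : X → ℝ) (hF : Adm F) :
    Adm (T F) := by
  obtain ⟨⟨K, hK⟩, B, hB⟩ := id hF
  exact ⟨⟨_, hT.lip K F hF hK⟩, B, hT.bdd B F hF hB⟩

theorem L1aux_max {X : Type} [NormedAddCommGroup X] (F G : X → ℝ) (hF : Adm F) (hG : Adm G) :
    Adm (fun x => max (F x) (G x)) := by
  obtain ⟨⟨K, hK⟩, B, hB⟩ := hF
  obtain ⟨⟨K', hK'⟩, B', hB'⟩ := hG
  refine ⟨⟨_, hK.max hK'⟩, max B B', ?_⟩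
  intro x
  change |max (F x) (G x)| ≤ max B B'
  rcases max_choice (F x) (G x) with h | h
  · rw [h]; exact (hB x).trans (le_max_left _ _)
  · rw [h]; exact (hB' x).trans (le_max_right _ _)

theorem t_L1 : S_L1 := by
  intro X _ _ _ _ _ μ _ T C hT F G hF hG
  set M : X → ℝ := fun x => max (F x) (G x) with hM
  have hMa : Adm M := L1aux_max F G hF hG
  have h1 : ∀ x, T F x ≤ T M x := by
    intro x
    have := hT.lower 0 le_rfl M F hMa hF (fun x => by rw [add_zero]; exact le_max_left _ _) x
    rwa [add_zero] at this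
  have h2 : ∀ x, T G x ≤ T M x := by
    intro x
    have := hT.lower 0 le_rfl M G hMa hG (fun x => by rw [add_zero]; exact le_max_right _ _) x
    rwa [add_zero] at this
  have iF := L1aux_integrable μ F hF
  have iG := L1aux_integrable μ G hG
  have iM := L1aux_integrable μ M hMa
  have jF := L1aux_integrable μ _ (L1aux_adm μ T C hT F hF)
  have jG := L1aux_integrable μ _ (L1aux_adm μ T C hT G hG)
  have jM := L1aux_integrable μ _ (L1aux_adm μ T C hT M hMa)
  calc ∫ x, |T F x - T G x| ∂μ ≤ ∫ x, ((T M x - T F x) + (T M x - T G x)) ∂μ := by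
        apply integral_mono (jF.sub jG).abs ((jM.sub jF).add (jM.sub jG))
        intro x
        have a1 := h1 x
        have a2 := h2 x
        change |T F x - T G x| ≤ (T M x - T F x) + (T M x - T G x)
        rw [abs_le]
        constructor <;> linarith
    _ = ∫ x, ((M x - F x) + (M x - G x)) ∂μ := by
        have e : ∀ A B D : X → ℝ, Integrable A μ → Integrable B μ → Integrable D μ →
            ∫ x, ((A x - B x) + (A x - D x)) ∂μ =
              (∫ x, A x ∂μ - ∫ x, B x ∂μ) + (∫ x, A x ∂μ - ∫ x, D x ∂μ) := by
          intro A B D hA hB hD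
          have e1 := integral_add (hA.sub hB) (hA.sub hD)
          have e2 := integral_sub hA hB
          have e3 := integral_sub hA hD
          simp only [Pi.sub_apply] at e1
          rw [e1, e2, e3]
        rw [e _ _ _ jM jF jG, e _ _ _ iM iF iG, hT.int F hF, hT.int G hG, hT.int M hMa]
    _ = ∫ x, |F x - G x| ∂μ := by
        congr 1
        funext x
        rw [hM]
        rcases le_total (F x) (G x) with h | h
        · simp only [max_eq_right h]
          rw [abs_of_nonpos (by linarith)]
          ring
        · simp only [max_eq_left h]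
          rw [abs_of_nonneg (by linarith)]
          ring

end R34.DP
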